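import Mathlib
import Pool.Agent.H90.P.Ns
import Pool.Agent.H90.P.Helper386.D5V.Helper386_FF_Place
import Pool.Agent.H90.P.W602.GT.Defs
import Pool.Agent.H90.P.W603.LV.Ord

/-!
Places and the vector fields of a torus.
-/

set_option autoImplicit false

open FF Pool.Agent.W602.GT Pool.Agent.W603.LV Pool.Agent.TH122.AB

namespace Pool.Agent.Y172

section

variable {k K : Type} [Field k] [CharZero k] [Field K] [Algebra k K]

omit [CharZero k] in
theorem DerLog.ge {P : Place k K} {D : Derivation k K K} (hD : DerLog P D) {N : ℤ} {f : K}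
    (hf : Ge P N f) : Ge P N (D f) := by
  by_cases h0 : f = 0
  · rw [h0, map_zero]
    exact Ge.zero
  have h2 : Ge P 0 (D f / f) := hD f
  have h1 := h2.mul hf
  rw [div_mul_cancel₀ _ h0, zero_add] at h1
  exact h1

variable {M : IntermediateField k K} {l : ℕ} {u : Fin l → K}

end

end Pool.Agent.Y172
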