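import Mathlib
import Pool.Agent.H90.P.Ns

/-!
Upper bounds for the sections: logarithmic frames and places of irreducible polynomials.
-/

set_option autoImplicit false
set_option linter.unusedSectionVars false

open FF Pool.Agent.W602.GT Pool.Agent.W603.LV Pool.Agent.TH122.AB

namespace Pool.Agent.Y172

section

variable {k K : Type} [Field k] [CharZero k] [Field K] [Algebra k K]

/-- the field is finite over the field generated by a transcendence basis -/
theorem fd_basis [Algebra.EssFiniteType k K] {n : ℕ} {Z : Fin n → K}
    (hZ : IsTranscendenceBasis k Z) :
    FiniteDimensional (IntermediateField.adjoin k (Set.range Z)) K := by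
  set K0 := IntermediateField.adjoin k (Set.range Z) with hK0
  have hess : Algebra.EssFiniteType K0 K := Algebra.EssFiniteType.of_comp k K0 K
  have halg : Algebra.IsAlgebraic K0 K := hZ.isAlgebraic_field
  obtain ⟨s, hs⟩ := IntermediateField.fg_top K0 K
  have h1 : FiniteDimensional K0 (IntermediateField.adjoin K0 (s : Set K)) :=
    IntermediateField.finiteDimensional_adjoin fun x _ => (halg.isAlgebraic x).isIntegral
  rw [hs] at h1
  exact h1.equiv IntermediateField.topEquiv.toLinearEquiv

variable {M : IntermediateField k K} {l : ℕ} {u : Fin l → K}

end

end Pool.Agent.Y172
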