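import Mathlib
import Pool.Agent.H90.P.Ns
import Pool.Agent.H90.P.Helper386.D5V.Helper386_FF_Place
import Pool.Agent.H90.P.Helper386.D5V.Helper399_OverDefs
import Pool.Agent.H90.P.W602.GT.Defs
import Pool.Agent.H90.P.W603.LV.Loc
import Pool.Agent.H90.P.W603.LV.Ord
import Pool.Agent.H90.P.W619.PQ.Log
import Pool.Agent.H90.P.W619.TW.Der
import Pool.Agent.H90.P.W619.Y.Parts
import Pool.Agent.H90.P.W73.PG.PULL
import Pool.Agent.H90.P.Y172.Adic
import Pool.Agent.H90.P.Y172.UpA

/-!
Pluricanonical forms in finite extensions: orders of pull-backs and of values on lifted vector fields.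
-/

set_option autoImplicit false
set_option linter.overlappingInstances false
set_option linter.unusedSectionVars false

open FF Pool.Agent.W602.GT Pool.Agent.W603.LV Pool.Agent.W619.PQ

namespace Pool.Agent.Y172

section

variable {k K : Type} [Field k] [CharZero k] [Field K] [Algebra k K] {n : ℕ}

/-- coordinates at a divisorial place with the dual vector fields -/
structure Loc (P : Place k K) (y : Fin n → K) (E : Fin n → Derivation k K K) (i0 : Fin n) :
    Prop where
  bas : IsTranscendenceBasis k y
  dual : ∀ i j, E i (y j) = if i = j then 1 else 0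
  unif : P.ord (y i0) = 1
  reg : ∀ i, P.Reg (y i)
  pres : ∀ i, DerReg P (E i)

theorem exists_loc [Algebra.EssFiniteType k K] (hn : Algebra.trdeg k K = n) {P : Place k K}
    (hP : Divisorial n P) : ∃ (y : Fin n → K) (E : Fin n → Derivation k K K) (i0 : Fin n),
      Loc P y E i0 := by
  obtain ⟨y, E, i0, h1, h2, h3, h4, h5⟩ := Pool.Agent.W619.Y.pFRAME.{0, 0} k K n hn
    (fun y hy => fd_basis hy) P hP
  exact ⟨y, E, i0, h1, h2, h3, h4, h5⟩

variable {P : Place k K} {y : Fin n → K} {E : Fin n → Derivation k K K} {i0 : Fin n}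

theorem Loc.ne (h : Loc P y E i0) : y i0 ≠ 0 := by
  intro h0
  have h1 := h.unif
  rw [h0, P.ord_zero] at h1
  exact zero_ne_one h1

/-- the coefficients of the logarithmic frame -/
noncomputable def lc (y : Fin n → K) (i0 i : Fin n) : K := if i = i0 then y i0 else 1

theorem Loc.log (h : Loc P y E i0) (i : Fin n) : DerLog P (lc y i0 i • E i) := by
  refine Pool.Agent.W619.TW.log_of_pres P _ (fun g hg => ?_) h.ne h.unif ?_
  · change P.Reg (lc y i0 i * E i g)
    refine P.reg_mul ?_ (h.pres i g hg)
    unfold lc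
    split_ifs
    · exact h.reg _
    · exact P.reg_one
  · change P.Reg (lc y i0 i * E i (y i0) / y i0)
    rw [h.dual]
    unfold lc
    by_cases hi : i = i0
    · rw [if_pos hi, if_pos hi, mul_one, div_self h.ne]
      exact P.reg_one
    · rw [if_neg hi, if_neg hi, mul_zero, zero_div]
      exact P.reg_zero

theorem prod_lc (y : Fin n → K) (i0 : Fin n) : ∏ i, lc y i0 i = y i0 := by
  unfold lc
  rw [Finset.prod_ite_eq' Finset.univ i0 (fun _ => y i0), if_pos (Finset.mem_univ _)]

/-- forms on rescaled vector fields -/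
theorem pluri_diag {m : ℕ} {ω : (Fin n → Derivation k K K) → K} (hω : IsPluri m ω)
    (c : Fin n → K) (D : Fin n → Derivation k K K) :
    ω (fun i => c i • D i) = (∏ i, c i) ^ m * ω D := by
  classical
  have h1 := hω (Matrix.diagonal c) D
  rw [Matrix.det_diagonal] at h1
  have h2 : (fun i => ∑ j, (Matrix.diagonal c) i j • D j) = fun i => c i • D i := by
    funext i
    rw [Finset.sum_eq_single i]
    · rw [Matrix.diagonal_apply_eq]
    · intro b _ hb
      rw [Matrix.diagonal_apply_ne _ (Ne.symm hb), zero_smul]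
    · intro hi
      exact absurd (Finset.mem_univ i) hi
  rw [h2] at h1
  exact h1

/-- forms in coordinates -/
theorem pluri_coord (hy : IsTranscendenceBasis k y)
    (hE : ∀ i j, E i (y j) = if i = j then 1 else 0) {m : ℕ}
    {ω : (Fin n → Derivation k K K) → K} (hω : IsPluri m ω) (D : Fin n → Derivation k K K) :
    ω D = (Matrix.of fun i j => D i (y j)).det ^ m * ω E := by
  have hexp : D = fun i => ∑ j, (Matrix.of fun i j => D i (y j)) i j • E j := by
    funext i
    exact (Pool.Agent.W73.PG.PULL.expand y hy E hE (D i)).symm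
  conv_lhs => rw [hexp]
  exact hω _ _

/-- the gain on logarithmic vector fields -/
theorem log_gain [Algebra.EssFiniteType k K] (hn : Algebra.trdeg k K = n)
    (hP : Divisorial n P) {m : ℕ} {W : (Fin n → Derivation k K K) → K} (hW : IsPluri m W) {c : ℝ}
    (hreg : ∀ G : Fin n → Derivation k K K, (∀ i, DerReg P (G i)) → W G = 0 ∨ c ≤ P.ord (W G))
    {D : Fin n → Derivation k K K} (hD : ∀ i, DerLog P (D i)) :
    W D = 0 ∨ c + m ≤ P.ord (W D) := by
  classical
  obtain ⟨y, E, i0, h⟩ := exists_loc hn hP
  have h1 := pluri_coord h.bas h.dual hW D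
  have h2 : Ge P 1 (Matrix.of fun i j => D i (y j)).det := by
    rw [← Matrix.det_transpose]
    refine ge_det P _ 1 (fun a _ => if a = i0 then 1 else 0) (fun a b => ?_) fun σ => ?_
    · change Ge P (if a = i0 then 1 else 0) (D b (y a))
      split_ifs with ha
      · rw [ha]
        exact DerLog.ge (hD b) (Or.inr (by rw [h.unif]))
      · exact DerLog.ge (hD b) (h.reg a)
    · have h3 : ∑ i, (if σ i = i0 then (1 : ℤ) else 0) = 1 := by
        rw [Finset.sum_eq_single (σ.symm i0)]
        · simp
        · intro i _ hi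
          rw [if_neg]
          intro h
          exact hi (by rw [← h]; simp)
        · intro h
          exact absurd (Finset.mem_univ _) h
      exact h3.ge
  by_cases h0 : W D = 0
  · exact Or.inl h0
  right
  have hd : (Matrix.of fun i j => D i (y j)).det ^ m ≠ 0 := by
    intro h3
    rw [h3, zero_mul] at h1
    exact h0 h1
  have hE0 : W E ≠ 0 := by
    intro h3
    rw [h3, mul_zero] at h1
    exact h0 h1
  have h3 := (hreg E h.pres).resolve_left hE0
  have h4 := (h2.pow m).resolve_left hd
  rw [h1, P.ord_mul hd hE0]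
  push_cast
  have h5 : (m : ℝ) ≤ (P.ord ((Matrix.of fun i j => D i (y j)).det ^ m) : ℝ) := by
    have : (m : ℤ) ≤ P.ord ((Matrix.of fun i j => D i (y j)).det ^ m) := by simpa using h4
    exact_mod_cast this
  linarith

end

section

variable {k K L : Type} [Field k] [CharZero k] [Field K] [Field L] [Algebra k K] [Algebra k L]
  [Algebra K L] [IsScalarTower k K L] [FiniteDimensional K L] {n : ℕ}
  {P : Place k K} {Q : Place k L} {e : ℕ} {y : Fin n → K} {E : Fin n → Derivation k K K}
  {i0 : Fin n}

theorem divisorial_up (h : Over Q P e) (hP : Divisorial n P) : Divisorial n Q := by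
  obtain ⟨u, hu⟩ := hP
  refine ⟨fun i => algebraMap K L (u i), fun F hF => ?_⟩
  have h1 : MvPolynomial.aeval (fun i => algebraMap K L (u i)) F =
      algebraMap K L (MvPolynomial.aeval u F) := by
    rw [← MvPolynomial.aeval_algebraMap_apply]
    rfl
  obtain ⟨h2, h3⟩ := hu F hF
  rw [h1, h.2, h3, mul_zero]
  refine ⟨?_, rfl⟩
  rwa [Ne, map_eq_zero]

/-- lifts of logarithmic vector fields -/
theorem lift_log (h : Over Q P e) {D : Derivation k K K} (hD : DerLog P D)
    {D' : Derivation k L L} (hD' : ∀ f, D' (algebraMap K L f) = algebraMap K L (D f)) :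
    DerLog Q D' := by
  intro z
  refine Pool.Agent.W619.Y.pLOG.{0, 0} k K L P Q e h D' (fun x => ?_) z
  rw [hD', ← map_div₀]
  exact h.reg.2 (hD x)

/-- forms on lifted vector fields -/
theorem down_ge [Algebra.EssFiniteType k L] (hn : Algebra.trdeg k L = n) (h : Over Q P e)
    (hQ : Divisorial n Q) (hl : Loc P y E i0) {E' : Fin n → Derivation k L L}
    (hE' : ∀ i f, E' i (algebraMap K L f) = algebraMap K L (E i f)) {m : ℕ}
    {W : (Fin n → Derivation k L L) → L} (hW : IsPluri m W) {c : ℝ}
    (hreg : ∀ G : Fin n → Derivation k L L, (∀ i, DerReg Q (G i)) → W G = 0 ∨ c ≤ Q.ord (W G)) :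
    W E' = 0 ∨ c + m - e * m ≤ Q.ord (W E') := by
  classical
  have h1 := log_gain hn hQ hW hreg (D := fun i => algebraMap K L (lc y i0 i) • E' i)
    (fun i => lift_log h (hl.log i) fun f => by
      change algebraMap K L (lc y i0 i) * E' i (algebraMap K L f) =
        algebraMap K L (lc y i0 i * E i f)
      rw [hE', map_mul])
  rw [pluri_diag hW (fun i => algebraMap K L (lc y i0 i)) E', ← map_prod, prod_lc] at h1
  have hy0 : algebraMap K L (y i0) ≠ 0 := by
    rw [Ne, map_eq_zero]
    exact hl.ne
  by_cases h0 : W E' = 0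
  · exact Or.inl h0
  right
  have h2 := h1.resolve_left (mul_ne_zero (pow_ne_zero _ hy0) h0)
  rw [Q.ord_mul (pow_ne_zero _ hy0) h0, Q.ord_pow, h.2, hl.unif, mul_one] at h2
  push_cast at h2
  have h3 : (m : ℝ) * e = e * m := mul_comm _ _
  linarith

end

end Pool.Agent.Y172
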