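import Mathlib
import Pool.Agent.H90.P.Ns
import Pool.Agent.H90.P.W357.PG.EXT
import Pool.Agent.H90.P.W602.GT.Der

/-!
Descent of pluricanonical forms in finite extensions.
-/

set_option autoImplicit false
set_option linter.overlappingInstances false
set_option linter.unusedSectionVars false

open FF Pool.Agent.W602.GT Pool.Agent.W603.LV Pool.Agent.W619.PQ

namespace Pool.Agent.Y172

section

variable {k K : Type} [Field k] [CharZero k] [Field K] [Algebra k K] {n : ℕ}

/-- a transcendence basis with the dual vector fields -/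
theorem exists_crd (hn : Algebra.trdeg k K = n) : ∃ (y : Fin n → K)
    (E : Fin n → Derivation k K K), IsTranscendenceBasis k y ∧
      ∀ i j, E i (y j) = if i = j then 1 else 0 := by
  obtain ⟨ι, z, hz⟩ := exists_isTranscendenceBasis' k K
  have h1 := hz.cardinalMk_eq_trdeg
  rw [hn] at h1
  have h2 : Cardinal.lift.{0} (Cardinal.mk ι) = Cardinal.lift.{0} (Cardinal.mk (Fin n)) := by
    rw [h1]
    simp
  obtain ⟨e⟩ := Cardinal.lift_mk_eq'.1 h2
  have h3 : IsTranscendenceBasis k (z ∘ e.symm) := (isTranscendenceBasis_equiv e.symm).2 hz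
  choose E hE using fun i : Fin n => exists_der _ h3 fun j => if i = j then 1 else 0
  exact ⟨_, E, h3, hE⟩

end

section

variable {k K L : Type} [Field k] [CharZero k] [Field K] [Field L] [Algebra k K] [Algebra k L]
  [Algebra K L] [IsScalarTower k K L] [FiniteDimensional K L] {n : ℕ}

theorem exists_lift (hn : Algebra.trdeg k K = n) (D : Derivation k K K) :
    ∃ D' : Derivation k L L, ∀ f, D' (algebraMap K L f) = algebraMap K L (D f) := by
  obtain ⟨D', h, -⟩ := Pool.Agent.W357.PG.main.{0, 0} k K L n hn D
  exact ⟨D', h⟩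

theorem trdeg_up (hn : Algebra.trdeg k K = n) : Algebra.trdeg k L = n := by
  obtain ⟨y, -, hy, -⟩ := exists_crd hn
  have h1 : IsTranscendenceBasis k (algebraMap K L ∘ y) := hy.algebraMap_comp
  rw [← h1.cardinalMk_eq_trdeg]
  simp

/-- the frame of the lifted vector fields -/
theorem lift_dual {y : Fin n → K} {E : Fin n → Derivation k K K}
    (hE : ∀ i j, E i (y j) = if i = j then 1 else 0) {E' : Fin n → Derivation k L L}
    (hE' : ∀ i f, E' i (algebraMap K L f) = algebraMap K L (E i f)) (i j : Fin n) :
    E' i (algebraMap K L (y j)) = if i = j then 1 else 0 := by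
  rw [hE', hE, apply_ite (algebraMap K L), map_one, map_zero]

end

end Pool.Agent.Y172
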