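import Mathlib
import Pool.Agent.H90.P.Ns
import Pool.Agent.H90.P.Helper386.D5V.Helper386_FF_Place
import Pool.Agent.H90.P.Helper386.D5V.Helper399_OverDefs

/-!
Places in finite extensions, and the descent of functions with algebraically independent ratios.
-/

set_option autoImplicit false
set_option linter.overlappingInstances false
set_option linter.unusedSectionVars false

open FF Pool.Agent.W603.LV Pool.Agent.W619.PQ Pool.Agent.W619.Y

namespace Pool.Agent.Y172

section

variable {k K L : Type} [Field k] [CharZero k] [Field K] [Field L] [Algebra k K] [Algebra k L]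
  [Algebra K L] [IsScalarTower k K L]

theorem place_ext {P P' : Place k K} (h : ∀ f, P.ord f = P'.ord f) : P = P' := by
  have h1 : P.ord = P'.ord := funext h
  cases P
  cases P'
  simp only at h1
  subst h1
  rfl

theorem over_unique' {Q : Place k L} {P P' : Place k K} {e e' : ℕ} (h : Over Q P e)
    (h' : Over Q P' e') : P = P' ∧ e = e' := by
  have h1 : ∀ f, (e : ℤ) * P.ord f = e' * P'.ord f := fun f => by rw [← h.2, ← h'.2]
  obtain ⟨f, -, hf⟩ := P.surj
  obtain ⟨f', -, hf'⟩ := P'.surj
  have h2 := h1 f
  have h3 := h1 f'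
  rw [hf, mul_one] at h2
  rw [hf', mul_one] at h3
  have h4 : (e' : ℤ) ∣ e := ⟨_, h2⟩
  have h5 : (e : ℤ) ∣ e' := ⟨_, h3.symm⟩
  have h6 : e = e' := Nat.dvd_antisymm (by exact_mod_cast h5) (by exact_mod_cast h4)
  subst h6
  refine ⟨place_ext fun f => ?_, rfl⟩
  have he : (e : ℤ) ≠ 0 := by
    have := h.1
    positivity
  exact mul_left_cancel₀ he (h1 f)

end

section

variable {k K L Ω : Type} [Field k] [CharZero k] [Field K] [Field L] [Field Ω] [Algebra k K]
  [Algebra k L] [Algebra k Ω] [Algebra K L] [Algebra K Ω] [IsScalarTower k K L]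
  [IsScalarTower k K Ω] [FiniteDimensional K L] [FiniteDimensional K Ω]

end

section

variable {k K L : Type} [Field k] [CharZero k] [Field K] [Field L] [Algebra k K] [Algebra k L]
  [Algebra K L] [IsScalarTower k K L] [FiniteDimensional K L]

end

end Pool.Agent.Y172
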